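import Mathlib
import Pool.Agent.Helper937.Szd2

set_option autoImplicit false

open Set Topology

namespace Pool.Agent.Results.MP_f50f0f_gt.ZeroDim

/-- If `X` is strongly zero-dimensional (or `C_p(X) × C_p(X)` is a continuous image of `C_p(X)`)
and every closed subspace of `C_p(X)` is separable, then `L_p(X)` is perfectly normal. -/
theorem result :
    ∀ (X : Type) [TopologicalSpace X] [T35Space X],
      ((∀ f : X → ℝ, Continuous f → ∀ a b : ℝ, a < b →
          ∃ C : Set X, IsClopen C ∧ {x | f x ≤ a} ⊆ C ∧ C ⊆ {x | f x < b}) ∨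
        (∃ Q : {f : X → ℝ // Continuous f} → {f : X → ℝ // Continuous f} × {f : X → ℝ // Continuous f},
          Continuous Q ∧ Function.Surjective Q)) →
      (∀ S : Set {f : X → ℝ // Continuous f}, IsClosed S → TopologicalSpace.SeparableSpace ↥S) →
      (NormalSpace ↥(Set.range (fun a : X →₀ ℝ => fun f : C(X, ℝ) => a.sum (fun x r => r * f x))) ∧
        ∀ s : Set ↥(Set.range (fun a : X →₀ ℝ => fun f : C(X, ℝ) => a.sum (fun x r => r * f x))),
          IsClosed s → IsGδ s) := by
  intro X _ _ hX hS
  have hsq : ∃ Q : Helper937.Szd.Cp X → Helper937.Szd.Cp X × Helper937.Szd.Cp X,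
      Continuous Q ∧ Function.Surjective Q := by
    rcases hX with hX | hX
    · exact Helper937.Szd.exists_square X hX
    · exact hX
  have hne : Nonempty (Helper937.Szd.Cp X) := ⟨⟨fun _ => 0, continuous_const⟩⟩
  have hCS : ∀ n, Helper937.Szd.CS (Fin n → Helper937.Szd.Cp X) := by
    intro n
    obtain ⟨R, hR, hRs⟩ := Helper937.Szd.exists_power hsq n
    exact Helper937.Szd.CS.image (Z := Helper937.Szd.Cp X) hS R hR hRs
  apply Helper937.Szd.perfect_of_zero
  intro P hP
  let g : (C(X, ℝ) → ℝ) ≃ₜ (Helper937.Szd.Cp X → ℝ) :=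
    { toFun := fun u f => u ⟨f.1, f.2⟩
      invFun := fun u f => u ⟨f, f.continuous⟩
      left_inv := fun u => rfl
      right_inv := fun u => rfl
      continuous_toFun := continuous_pi fun f => continuous_apply _
      continuous_invFun := continuous_pi fun f => continuous_apply _ }
  have hind : IsInducing (fun φ : ↥(Set.range (fun a : X →₀ ℝ => fun f : C(X, ℝ) =>
      a.sum (fun x r => r * f x))) => g φ.1) := by
    exact g.isInducing.comp (IsInducing.subtypeVal (t := Set.range (fun a : X →₀ ℝ => fun f : C(X, ℝ) =>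
      a.sum (fun x r => r * f x))))
  refine Helper937.Szd.zero_set (X := X) (fun φ => g φ.1) hind ?_ hCS P hP
  rintro ⟨_, a, rfl⟩
  show Continuous (fun f : Helper937.Szd.Cp X => a.sum (fun x r => r * f.1 x))
  unfold Finsupp.sum
  exact continuous_finsetSum _ fun x _ => continuous_const.mul
    ((continuous_apply x).comp continuous_subtype_val)

end Pool.Agent.Results.MP_f50f0f_gt.ZeroDim
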